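import Pool.Agent.U79.GZ.Stm
import Pool.Agent.U891.GY.LOW

/-!
# Project GZ, package LOW (helper49): the lower bound for the class with a product condition

From the bound for the class without the condition (`Pool/Agent/U891/GY/LOW.lean`, helper891); the product
condition as in `Pool/Agent/U2/GD/LOW.lean` (helper2).
-/

set_option autoImplicit false

open scoped Classical

namespace Pool.Agent.U49.GZ

open Finset
open Pool.Agent.U79.GZ
open Pool.Agent.U79.GY (Cfg Ok Hc Sp In Cl SS da db dl)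
open Pool.Agent.U115.GD (S_MER S_CHE)
open Pool.Agent.U891.GY (dl_nonneg dl_le)

theorem pr_of {G : Cfg} {p : ℕ} (h : Sp G p ∨ In G p) : p.Prime := by
  rcases h with h | h
  · exact h.1
  · exact h.1

theorem cop_of {G : Cfg} (h : Ok G) {p : ℕ} (hp : Sp G p ∨ In G p) : Nat.Coprime p G.Q := by
  have h2 : Nat.Coprime (p % G.Q) G.Q := by
    rcases hp with hp | hp
    · exact (h.hA _ hp.2).2
    · exact (h.hB _ hp.2).2.1
  have h4 : Nat.gcd G.Q p = Nat.gcd (p % G.Q) G.Q := Nat.gcd_rec G.Q p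
  unfold Nat.Coprime at h2 ⊢
  rw [Nat.gcd_comm, h4]
  exact h2

/-- the sets of the class without elements of `F` -/
noncomputable def UU (G : Cfg) (F : Finset ℕ) (X : ℕ) : Finset (Finset ℕ) :=
  (SS G X).filter fun S => Disjoint S F

theorem card_SS_le (G : Cfg) (F : Finset ℕ) (X : ℕ) :
    (SS G X).card ≤ 2 ^ F.card * (UU G F X).card := by
  rw [← Finset.card_powerset, ← Finset.card_product]
  refine Finset.card_le_card_of_injOn (fun S => (S ∩ F, S \ F)) ?_ ?_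
  · intro S hS
    rw [mem_coe, SS, mem_filter, mem_powerset] at hS
    obtain ⟨h1, h2, h3⟩ := hS
    rw [mem_coe, mem_product]
    refine ⟨mem_powerset.2 inter_subset_right, ?_⟩
    rw [UU, mem_filter, SS, mem_filter, mem_powerset]
    refine ⟨⟨sdiff_subset.trans h1, fun p hp => h2 p (sdiff_subset hp), ?_⟩, sdiff_disjoint⟩
    refine le_trans ?_ h3
    refine Nat.le_of_dvd (Finset.prod_pos fun p hp => (pr_of (h2 p hp)).pos) ?_
    exact Finset.prod_dvd_prod_of_subset _ _ _ sdiff_subset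
  · intro S _ S' _ he
    simp only [Prod.mk.injEq] at he
    rw [← Finset.sdiff_union_inter S F, he.1, he.2, Finset.sdiff_union_inter]

/-- finite sets of primes of the class with given residue of the product -/
theorem exists_tw (G : Cfg) : ∃ T : ℕ → Finset ℕ, (∀ r, ∀ p ∈ T r, Sp G p ∨ In G p) ∧
    ∀ S : Finset ℕ, (∀ p ∈ S, Sp G p ∨ In G p) →
      (∏ p ∈ T ((∏ p ∈ S, p) % G.Q), p) % G.Q = (∏ p ∈ S, p) % G.Q := by
  have h1 : ∀ r : ℕ, ∃ T : Finset ℕ, (∀ p ∈ T, Sp G p ∨ In G p) ∧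
      ∀ S : Finset ℕ, (∀ p ∈ S, Sp G p ∨ In G p) → (∏ p ∈ S, p) % G.Q = r →
        (∏ p ∈ T, p) % G.Q = r := by
    intro r
    by_cases hr : ∃ S : Finset ℕ, (∀ p ∈ S, Sp G p ∨ In G p) ∧ (∏ p ∈ S, p) % G.Q = r
    · obtain ⟨S, hS1, hS2⟩ := hr
      exact ⟨S, hS1, fun _ _ _ => hS2⟩
    · refine ⟨∅, by simp, fun S hS1 hS2 => ?_⟩
      exact absurd ⟨S, hS1, hS2⟩ hr
  choose T hT1 hT2 using h1
  exact ⟨T, hT1, fun S hS => hT2 _ S hS rfl⟩

theorem cop_prod {G : Cfg} (h : Ok G) {S : Finset ℕ} (hS : ∀ p ∈ S, Sp G p ∨ In G p) :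
    Nat.Coprime (∏ p ∈ S, p) G.Q :=
  Nat.Coprime.prod_left fun p hp => cop_of h (hS p hp)

theorem card_UU_le {G : Cfg} (h : Ok G) {R : Finset ℕ}
    (hR : ∀ n : ℕ, Nat.Coprime n G.Q → (n * n) % G.Q ∈ R) {T : ℕ → Finset ℕ}
    (hT1 : ∀ r, ∀ p ∈ T r, Sp G p ∨ In G p)
    (hT2 : ∀ S : Finset ℕ, (∀ p ∈ S, Sp G p ∨ In G p) →
      (∏ p ∈ T ((∏ p ∈ S, p) % G.Q), p) % G.Q = (∏ p ∈ S, p) % G.Q) (X : ℕ) :
    (UU G ((range G.Q).biUnion T) (X / ∏ r ∈ range G.Q, ∏ p ∈ T r, p)).card ≤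
      (SP G R X).card := by
  have hpos : ∀ r, 0 < ∏ p ∈ T r, p := fun r => Finset.prod_pos fun p hp => (pr_of (hT1 r p hp)).pos
  refine Finset.card_le_card_of_injOn (fun S => S ∪ T ((∏ p ∈ S, p) % G.Q)) ?_ ?_
  · intro S hS
    rw [mem_coe, UU, mem_filter, SS, mem_filter, mem_powerset] at hS
    obtain ⟨⟨-, hSc, hS2⟩, hSd⟩ := hS
    obtain ⟨ρ, hρ⟩ : ∃ ρ, ρ = (∏ p ∈ S, p) % G.Q := ⟨_, rfl⟩
    have hρQ : ρ ∈ range G.Q := by
      rw [mem_range, hρ]
      exact Nat.mod_lt _ h.q0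
    have hdis : Disjoint S (T ρ) := by
      rw [Finset.disjoint_left]
      intro p hp hp'
      exact (Finset.disjoint_left.mp hSd hp) (mem_biUnion.2 ⟨ρ, hρQ, hp'⟩)
    have hall : ∀ p ∈ S ∪ T ρ, Sp G p ∨ In G p := by
      intro p hp
      rcases mem_union.mp hp with hp | hp
      · exact hSc p hp
      · exact hT1 ρ p hp
    have hpr : ∏ p ∈ S ∪ T ρ, p = (∏ p ∈ S, p) * ∏ p ∈ T ρ, p := Finset.prod_union hdis
    have hle : ∏ p ∈ S ∪ T ρ, p ≤ X := by
      rw [hpr]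
      have h1 : ∏ p ∈ T ρ, p ≤ ∏ r ∈ range G.Q, ∏ p ∈ T r, p :=
        Nat.le_of_dvd (Finset.prod_pos fun r _ => hpos r)
          (Finset.dvd_prod_of_mem (fun r => ∏ p ∈ T r, p) hρQ)
      exact (Nat.mul_le_mul hS2 h1).trans (Nat.div_mul_le_self _ _)
    have hhc : (∏ p ∈ S ∪ T ρ, p) % G.Q ∈ R := by
      rw [hpr, Nat.mul_mod, hρ, hT2 S hSc, ← Nat.mul_mod]
      exact hR _ (cop_prod h hSc)
    simp only [← hρ]
    rw [mem_coe, SP, mem_filter, SS, mem_filter, mem_powerset]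
    refine ⟨⟨?_, hall, hle⟩, hhc⟩
    intro p hp
    rw [mem_range]
    have h3 : p ∣ ∏ q ∈ S ∪ T ρ, q := Finset.dvd_prod_of_mem _ hp
    have h4 : 0 < ∏ q ∈ S ∪ T ρ, q := Finset.prod_pos fun q hq => (pr_of (hall q hq)).pos
    have := Nat.le_of_dvd h4 h3
    omega
  · intro S hS S' hS' he
    rw [mem_coe, UU, mem_filter] at hS hS'
    have key : ∀ S : Finset ℕ, Disjoint S ((range G.Q).biUnion T) →
        (S ∪ T ((∏ p ∈ S, p) % G.Q)).filter (fun p => p ∉ (range G.Q).biUnion T) = S := by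
      intro S hS
      ext p
      rw [mem_filter, mem_union]
      constructor
      · rintro ⟨h1 | h1, h2⟩
        · exact h1
        · exact absurd (mem_biUnion.2 ⟨_, mem_range.2 (Nat.mod_lt _ h.q0), h1⟩) h2
      · intro h1
        exact ⟨Or.inl h1, Finset.disjoint_left.mp hS h1⟩
    simp only at he
    rw [← key S hS.2, he, key S' hS'.2]

theorem t_LOW : S_LOW := by
  intro hM hche G R h hR
  obtain ⟨T, hT1, hT2⟩ := exists_tw G
  obtain ⟨c, X₀, hc, h0⟩ := Pool.Agent.U891.GY.t_LOW hM hche G h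
  obtain ⟨M, hMd⟩ : ∃ M, M = ∏ r ∈ range G.Q, ∏ p ∈ T r, p := ⟨_, rfl⟩
  obtain ⟨F, hF⟩ : ∃ F, F = (range G.Q).biUnion T := ⟨_, rfl⟩
  have hM0 : 0 < M := by
    rw [hMd]
    exact Finset.prod_pos fun r _ => Finset.prod_pos fun p hp => (pr_of (hT1 r p hp)).pos
  have hMR : (0 : ℝ) < M := by exact_mod_cast hM0
  refine ⟨c / 2 ^ F.card / (2 * M), M * (X₀ + 3), by positivity, fun X hX => ?_⟩
  have h1 := card_UU_le h hR hT1 hT2 X
  rw [← hMd, ← hF] at h1
  obtain ⟨Y, hY⟩ : ∃ Y, Y = X / M := ⟨_, rfl⟩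
  rw [← hY] at h1
  have hY1 : X₀ + 3 ≤ Y := by
    rw [hY, Nat.le_div_iff_mul_le hM0, mul_comm]
    exact hX
  have h2 := h0 Y (by omega)
  have h2' : c / 2 ^ F.card * Y * (Real.log Y) ^ (-1 + dl G : ℝ) ≤ ((UU G F Y).card : ℝ) := by
    have h4 : ((SS G Y).card : ℝ) ≤ 2 ^ F.card * ((UU G F Y).card : ℝ) := by
      exact_mod_cast card_SS_le G F Y
    have h5 : c / 2 ^ F.card * Y * (Real.log Y) ^ (-1 + dl G : ℝ) =
      (c * Y * (Real.log Y) ^ (-1 + dl G : ℝ)) / 2 ^ F.card := by ring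
    rw [h5, div_le_iff₀ (by positivity), mul_comm]
    linarith
  have h3 : ((UU G F Y).card : ℝ) ≤ ((SP G R X).card : ℝ) := by
    exact_mod_cast h1
  refine le_trans ?_ (h2'.trans h3)
  have hYX : Y ≤ X := by rw [hY]; exact Nat.div_le_self _ _
  have hYR : (3 : ℝ) ≤ Y := by exact_mod_cast (show 3 ≤ Y by omega)
  have hlY : 0 < Real.log Y := Real.log_pos (by linarith)
  have hXY : (X : ℝ) / (2 * M) ≤ (Y : ℝ) := by
    have h9 : X < M * Y + M := by
      rw [hY]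
      have := Nat.div_add_mod X M
      have := Nat.mod_lt X hM0
      omega
    have h10 : (X : ℝ) < M * (Y : ℝ) + M := by exact_mod_cast h9
    rw [div_le_iff₀ (by positivity)]
    nlinarith
  have hlog : (Real.log X) ^ (-1 + dl G : ℝ) ≤ (Real.log Y) ^ (-1 + dl G : ℝ) := by
    refine Real.rpow_le_rpow_of_nonpos hlY ?_ ?_
    · exact Real.log_le_log (by linarith) (by exact_mod_cast hYX)
    · have := dl_le h
      linarith
  have hlX0 : 0 ≤ (Real.log X) ^ (-1 + dl G : ℝ) :=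
    Real.rpow_nonneg (Real.log_natCast_nonneg X) _
  have hcF : 0 < c / 2 ^ F.card := by positivity
  calc c / 2 ^ F.card / (2 * M) * X * (Real.log X) ^ (-1 + dl G : ℝ)
      = c / 2 ^ F.card * (X / (2 * M)) * (Real.log X) ^ (-1 + dl G : ℝ) := by ring
    _ ≤ c / 2 ^ F.card * Y * (Real.log Y) ^ (-1 + dl G : ℝ) := by
        refine mul_le_mul (mul_le_mul_of_nonneg_left hXY hcF.le) hlog hlX0 (by positivity)

end Pool.Agent.U49.GZ
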